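import Mathlib
import Pool.Agent.R113.CE.Main

/-!
# MP_3523e7_pr, Q1: `λ_c(α) / α` converges to a positive constant as `α → ∞`
-/

set_option autoImplicit false

open MeasureTheory Filter Topology
open scoped ENNReal

namespace Pool.Agent.Results.MP_3523e7_pr.ConversionLimit

/-- the four nearest neighbours of `x` in `ℤ²` -/
def nbr (x : ℤ × ℤ) : Finset (ℤ × ℤ) :=
  {(x.1 + 1, x.2), (x.1 - 1, x.2), (x.1, x.2 + 1), (x.1, x.2 - 1)}

/-- a configuration with finitely many non-white vertices:
the set of the red vertices and the set of the blue vertices -/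
abbrev Config := Finset (ℤ × ℤ) × Finset (ℤ × ℤ)

/-- the origin is red, all other vertices are white -/
def init : Config := ({(0, 0)}, ∅)

/-- `rate lam α s t`: the rate at which chase-escape with conversion jumps from `s` to `t`.
For each red `x`: each white neighbour `z` of `x` turns red at rate `lam`; `x` turns blue at rate
`α` (conversion), and at rate `1` for each blue neighbour `y` of `x` (predation). -/
noncomputable def rate (lam α : ℝ) (s t : Config) : ℝ≥0∞ :=
  ∑ x ∈ s.1,
    ((∑ z ∈ nbr x, if (z ∉ s.1 ∧ z ∉ s.2) ∧ t = (insert z s.1, s.2) then ENNReal.ofReal lam else 0)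
      + (if t = (s.1.erase x, insert x s.2) then ENNReal.ofReal α else 0)
      + ∑ y ∈ nbr x, if y ∈ s.2 ∧ t = (s.1.erase x, insert x s.2) then 1 else 0)

open Classical in
/-- one jump of the process: the next configuration is `t` with probability
`rate s t / ∑ t', rate s t'`; a configuration which cannot be left stays -/
noncomputable def jump (lam α : ℝ) (s : Config) : PMF Config :=
  if h : (∑' t, rate lam α s t) ≠ 0 ∧ (∑' t, rate lam α s t) ≠ ∞ then
    PMF.normalize (rate lam α s) h.1 h.2
  else PMF.pure s

/-- the law of the configuration after `n` jumps, starting from `s` -/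
noncomputable def law (lam α : ℝ) (s : Config) : ℕ → PMF Config
  | 0 => PMF.pure s
  | n + 1 => (law lam α s n).bind (jump lam α)

/-- `P(X < ∞)`: the probability that the process fixates, i.e. that there is no red vertex after
`n` jumps for some `n` (these events increase with `n`, as a configuration without red vertex is
never left; a configuration with a red vertex is always left, since `α > 0`) -/
noncomputable def probFinite (lam α : ℝ) : ℝ≥0∞ :=
  ⨆ n, (law lam α init n).toOuterMeasure {s | s.1 = ∅}

/-- the rates `λ > 0` at which `X < ∞` almost surely -/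
def dies (α : ℝ) : Set ℝ := {lam | 0 < lam ∧ probFinite lam α = 1}

/-- the critical rate `λ_c(α)` -/
noncomputable def critical (α : ℝ) : ℝ := sSup (dies α)

/-! ### Proof -/

open Pool.Agent.R113.CE in
theorem tsum_rate (lam α : ℝ) (s : Config) (G : Config → ℝ≥0∞) :
    ∑' t, rate lam α s t * G t = ∑ x ∈ s.1,
      ((ENNReal.ofReal α + ((nb x ∩ s.2).card : ℝ≥0∞)) * G (rem s x)
        + ENNReal.ofReal lam * ∑ z ∈ Wh nb s x, G (inf s z)) := by
  have hone : ∀ (t0 : Config) (p : Prop) [Decidable p] (a : ℝ≥0∞) (q : Config → Prop)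
      [DecidablePred q], (∀ t, q t ↔ p ∧ t = t0) →
      ∑' t, (if q t then a else 0) * G t = if p then a * G t0 else 0 := by
    intro t0 p _ a q _ hq
    rw [tsum_eq_single t0]
    · by_cases hp : p
      · rw [if_pos hp, if_pos ((hq t0).mpr ⟨hp, rfl⟩)]
      · rw [if_neg hp, if_neg (fun h => hp ((hq t0).mp h).1), zero_mul]
    · intro t ht
      rw [if_neg (fun h => ht ((hq t).mp h).2), zero_mul]
  unfold rate
  simp only [Finset.sum_mul]
  rw [Summable.tsum_finsetSum (fun _ _ => ENNReal.summable)]
  refine Finset.sum_congr rfl fun x hx => ?_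
  simp only [add_mul, Finset.sum_mul]
  rw [ENNReal.tsum_add, ENNReal.tsum_add, Summable.tsum_finsetSum (fun _ _ => ENNReal.summable),
    Summable.tsum_finsetSum (fun _ _ => ENNReal.summable)]
  have e1 : ∀ z ∈ nbr x, ∑' t, (if (z ∉ s.1 ∧ z ∉ s.2) ∧ t = (insert z s.1, s.2) then
      ENNReal.ofReal lam else 0) * G t
      = if z ∉ s.1 ∧ z ∉ s.2 then ENNReal.ofReal lam * G (inf s z) else 0 :=
    fun z _ => hone (insert z s.1, s.2) _ _ _ fun t => Iff.rfl
  have e2 : ∑' t, (if t = (s.1.erase x, insert x s.2) then ENNReal.ofReal α else 0) * G t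
      = ENNReal.ofReal α * G (rem s x) := by
    have := hone (s.1.erase x, insert x s.2) True (ENNReal.ofReal α)
      (fun t => t = (s.1.erase x, insert x s.2)) (fun t => by simp)
    rw [if_pos trivial] at this
    exact this
  have e3 : ∀ y ∈ nbr x, ∑' t, (if y ∈ s.2 ∧ t = (s.1.erase x, insert x s.2) then
      (1 : ℝ≥0∞) else 0) * G t = if y ∈ s.2 then 1 * G (rem s x) else 0 :=
    fun y _ => hone (s.1.erase x, insert x s.2) _ _ _ fun t => Iff.rfl
  rw [Finset.sum_congr rfl e1, e2, Finset.sum_congr rfl e3]
  have e4 : ∑ z ∈ nbr x, (if z ∉ s.1 ∧ z ∉ s.2 then ENNReal.ofReal lam * G (inf s z) else 0)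
      = ENNReal.ofReal lam * ∑ z ∈ Wh nb s x, G (inf s z) := by
    rw [← Finset.sum_filter, Finset.mul_sum]
    refine Finset.sum_congr ?_ fun _ _ => rfl
    ext z
    rw [Finset.mem_filter, mem_Wh]
    exact Iff.rfl
  have e5 : ∑ y ∈ nbr x, (if y ∈ s.2 then 1 * G (rem s x) else 0)
      = ((nb x ∩ s.2).card : ℝ≥0∞) * G (rem s x) := by
    rw [← Finset.sum_filter, Finset.sum_const, one_mul, nsmul_eq_mul]
    congr 2
  rw [e4, e5]
  ring

theorem law_succ' (lam α : ℝ) (n : ℕ) (s : Config) :
    law lam α s (n + 1) = (jump lam α s).bind fun t => law lam α t n := by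
  induction n generalizing s with
  | zero =>
    simp only [law, PMF.pure_bind]
    exact (PMF.bind_pure _).symm
  | succ n ih =>
    have h1 : law lam α s (n + 1 + 1) = (law lam α s (n + 1)).bind (jump lam α) := rfl
    rw [h1, ih, PMF.bind_bind]
    rfl

open Pool.Agent.R113.CE in
theorem law_eq {lam α : ℝ} (hl : 0 ≤ lam) (hα : 0 < α) (n : ℕ) : ∀ s : Config,
    (law lam α s n).toOuterMeasure {s | s.1 = ∅} = ENNReal.ofReal (A nb (cr α) lam n s) := by
  have hc := cr_pos α
  induction n with
  | zero =>
    intro s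
    simp only [law, A]
    rw [PMF.toOuterMeasure_pure_apply]
    by_cases h : s.1 = ∅
    · rw [if_pos h, if_pos (by exact h)]; simp
    · rw [if_neg h, if_neg (by exact h)]; simp
  | succ n ih =>
    intro s
    rw [law_succ', PMF.toOuterMeasure_bind_apply]
    by_cases h : s.1 = ∅
    · have h0 : (∑' t, rate lam α s t) = 0 := by
        have := tsum_rate lam α s (fun _ => 1)
        simp only [mul_one] at this
        rw [this, h, Finset.sum_empty]
      have hj : jump lam α s = PMF.pure s := by
        unfold jump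
        rw [dif_neg]
        exact fun hh => hh.1 h0
      rw [hj]
      have h1 : ∀ t, (PMF.pure s) t * (law lam α t n).toOuterMeasure {s | s.1 = ∅}
          = (if t = s then (law lam α s n).toOuterMeasure {s | s.1 = ∅} else 0) := by
        intro t
        rw [PMF.pure_apply]
        by_cases hts : t = s
        · rw [if_pos hts, if_pos hts, one_mul, hts]
        · rw [if_neg hts, if_neg hts, zero_mul]
      rw [tsum_congr h1, tsum_ite_eq, ih, A_empty nb _ _ _ h, A_empty nb _ _ _ h]
    · -- the total rate
      have hcast : ∀ x, ENNReal.ofReal α + ((nb x ∩ s.2).card : ℝ≥0∞)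
          = ENNReal.ofReal (cr α s x) := by
        intro x
        unfold cr
        rw [if_pos hα, ENNReal.ofReal_add hα.le (Nat.cast_nonneg _), ENNReal.ofReal_natCast]
      have hsum : ∀ (f : Config → ℝ), (∀ t, 0 ≤ f t) →
          ∑' t, rate lam α s t * ENNReal.ofReal (f t) = ENNReal.ofReal (∑ x ∈ s.1,
            (cr α s x * f (rem s x) + lam * ∑ z ∈ Wh nb s x, f (inf s z))) := by
        intro f hf
        rw [tsum_rate, ENNReal.ofReal_sum_of_nonneg]
        · refine Finset.sum_congr rfl fun x _ => ?_
          rw [hcast, ← ENNReal.ofReal_mul (hc s x).le, ← ENNReal.ofReal_sum_of_nonneg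
            (fun z _ => hf _), ← ENNReal.ofReal_mul hl, ← ENNReal.ofReal_add
            (mul_nonneg (hc s x).le (hf _)) (mul_nonneg hl (Finset.sum_nonneg fun z _ => hf _))]
        · intro x _
          exact add_nonneg (mul_nonneg (hc s x).le (hf _))
            (mul_nonneg hl (Finset.sum_nonneg fun z _ => hf _))
      have htot : (∑' t, rate lam α s t)
          = ENNReal.ofReal (∑ x ∈ s.1, (cr α s x + lam * (Wh nb s x).card)) := by
        have := hsum (fun _ => 1) (fun _ => zero_le_one)
        simp only [ENNReal.ofReal_one, mul_one, Finset.sum_const, nsmul_eq_mul] at this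
        exact this
      have hD := den_pos nb hc hl h
      have hne : (∑' t, rate lam α s t) ≠ 0 ∧ (∑' t, rate lam α s t) ≠ ∞ := by
        rw [htot]
        exact ⟨(ENNReal.ofReal_pos.mpr hD).ne', ENNReal.ofReal_ne_top⟩
      have hj : jump lam α s = PMF.normalize (rate lam α s) hne.1 hne.2 := by
        unfold jump
        rw [dif_pos hne]
      rw [hj]
      have h1 : ∀ t, (PMF.normalize (rate lam α s) hne.1 hne.2) t *
          (law lam α t n).toOuterMeasure {s | s.1 = ∅}
          = (rate lam α s t * ENNReal.ofReal (A nb (cr α) lam n t)) *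
            (∑' t, rate lam α s t)⁻¹ := by
        intro t
        rw [PMF.normalize_apply, ih t]
        ring
      rw [tsum_congr h1, ENNReal.tsum_mul_right, hsum _ (fun t => A_nonneg nb hc hl n t), htot]
      simp only [A, h, if_false]
      rw [ENNReal.ofReal_div_of_pos hD, div_eq_mul_inv]

open Pool.Agent.R113.CE in
theorem dies_eq {α : ℝ} (hα : 0 < α) : dies α = S α := by
  ext l
  unfold dies S probFinite
  simp only [Set.mem_ofPred_eq]
  constructor
  · rintro ⟨h1, h2⟩
    refine ⟨h1, ?_⟩
    rw [← h2]
    exact iSup_congr fun n => (law_eq h1.le hα n init).symm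
  · rintro ⟨h1, h2⟩
    refine ⟨h1, ?_⟩
    rw [← h2]
    exact iSup_congr fun n => law_eq h1.le hα n init

/-- **Q1, affirmative answer**: there is a constant `C > 0` such that `λ_c(α) / α → C` as
`α → ∞`; moreover `C α ≤ λ_c(α) ≤ C (α + 4)` for every `α > 0` (and the set of which `λ_c(α)` is
the supremum is nonempty and bounded above). -/
theorem result : ∃ C : ℝ, 0 < C ∧ Tendsto (fun α => critical α / α) atTop (𝓝 C) ∧
    ∀ α : ℝ, 0 < α → (dies α).Nonempty ∧ BddAbove (dies α) ∧
      C * α ≤ critical α ∧ critical α ≤ C * (α + 4) := by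
  refine ⟨Pool.Agent.R113.CE.tc, Pool.Agent.R113.CE.tc_pos, ?_, ?_⟩
  · refine Tendsto.congr' ?_ Pool.Agent.R113.CE.main_lim
    filter_upwards [eventually_gt_atTop 0] with α hα
    unfold critical
    rw [dies_eq hα]
  · intro α hα
    unfold critical
    rw [dies_eq hα]
    exact ⟨Pool.Agent.R113.CE.S_ne hα, Pool.Agent.R113.CE.S_bdd hα, Pool.Agent.R113.CE.le_lc hα,
      Pool.Agent.R113.CE.lc_le hα⟩

end Pool.Agent.Results.MP_3523e7_pr.ConversionLimit
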